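import Mathlib
import Pool.Agent.U839.Hl.Cnt
import Pool.Agent.H381R2.HR.Main

set_option autoImplicit false

/-! # The largest number of candidates in a window, compared with `π` -/

open Finset Filter

namespace Pool.Agent.U746.HL

open Pool.Agent.U839.Hl (hh HH le_HH)

theorem HH_adm (k : ℕ) (S : Finset ℤ) (h0 : ∀ s ∈ S, 0 ≤ s ∧ (s : ℝ) < k)
    (hadm : ∀ q : ℕ, q.Prime → ∃ r : ℤ, ∀ s ∈ S, ¬ ((q : ℤ) ∣ s - r)) : S.card ≤ HH k := by
  classical
  have hr : ∃ r : ℕ → ℤ, ∀ q : ℕ, q.Prime → ∀ s ∈ S, ¬ ((q : ℤ) ∣ s - r q) := by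
    choose r hr using hadm
    refine ⟨fun q => if h : q.Prime then r q h else 0, fun q hq => ?_⟩
    simp only [dif_pos hq]
    exact hr q hq
  obtain ⟨r, hr⟩ := hr
  obtain ⟨P, hP⟩ : ∃ P, P = (Icc 1 k).filter Nat.Prime := ⟨_, rfl⟩
  have hPp : ∀ p ∈ P, p.Prime := by
    intro p hp
    rw [hP, mem_filter] at hp
    exact hp.2
  obtain ⟨α, hα⟩ := Pool.Agent.H381R2.HR.crt P hPp r
  obtain ⟨M, hM⟩ : ∃ M : ℕ, M = ∏ p ∈ P, p := ⟨_, rfl⟩
  have hM0 : 0 < M := by
    rw [hM]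
    exact prod_pos (fun p hp => (hPp p hp).pos)
  obtain ⟨m, hm⟩ : ∃ m : ℕ, (m : ℤ) = -α - 1 + M * (|α| + 1) := by
    have h1 : 0 ≤ -α - 1 + M * (|α| + 1) := by
      have h2 := le_abs_self α
      have h3 : (1 : ℤ) ≤ M := by exact_mod_cast hM0
      have h4 := abs_nonneg α
      nlinarith
    exact ⟨(-α - 1 + M * (|α| + 1)).toNat, Int.toNat_of_nonneg h1⟩
  refine le_trans ?_ (le_HH m k)
  unfold hh
  refine card_le_card_of_injOn (fun s => (s + m + 1).toNat) ?_ ?_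
  · intro s hs
    rw [mem_coe] at hs
    obtain ⟨g1, g2⟩ := h0 s hs
    have g3 : s < k := by exact_mod_cast g2
    have e : (((s + m + 1).toNat : ℕ) : ℤ) = s + m + 1 := Int.toNat_of_nonneg (by positivity)
    rw [mem_coe, mem_filter, mem_Ioc]
    beta_reduce
    refine ⟨⟨by omega, by omega⟩, ?_⟩
    intro p hp hpk hdvd
    have hpP : p ∈ P := by
      rw [hP, mem_filter, mem_Icc]
      exact ⟨⟨hp.one_lt.le, hpk⟩, hp⟩
    have h1 : (p : ℤ) ∣ s + m + 1 := by
      rw [← e]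
      exact_mod_cast hdvd
    have h2 : (p : ℤ) ∣ M := by
      rw [hM]
      exact_mod_cast dvd_prod_of_mem _ hpP
    have h3 := hα p hpP
    apply hr p hp s hs
    have h4 : s - r p = (s + m + 1) + (α - r p) - M * (|α| + 1) := by
      rw [hm]
      ring
    rw [h4]
    exact dvd_sub (dvd_add h1 h3) (Dvd.dvd.mul_right h2 _)
  · intro s hs t ht hst
    rw [mem_coe] at hs ht
    have g1 := (h0 s hs).1
    have g2 := (h0 t ht).1
    have e1 : (((s + m + 1).toNat : ℕ) : ℤ) = s + m + 1 := Int.toNat_of_nonneg (by positivity)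
    have e2 : (((t + m + 1).toNat : ℕ) : ℤ) = t + m + 1 := Int.toNat_of_nonneg (by positivity)
    simp only at hst
    have : (((s + m + 1).toNat : ℕ) : ℤ) = (((t + m + 1).toNat : ℕ) : ℤ) := by rw [hst]
    omega

/-- beyond Hensley and Richards -/
theorem HH_pi (α : ℝ) (hα : α < 1 / 2) : ∀ᶠ k : ℕ in atTop,
    (Nat.primeCounting k : ℝ) + α * (k * Real.log (Real.log (Real.log k)) / (Real.log k) ^ 2) ≤ HH k := by
  obtain ⟨x0, hx0⟩ := Pool.Agent.H381R2.HR.final hα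
  filter_upwards [tendsto_natCast_atTop_atTop.eventually_ge_atTop x0] with k hk
  obtain ⟨S, -, h1, h2, h3⟩ := hx0 k hk
  rw [Nat.floor_natCast] at h3
  have h4 : (S.card : ℝ) ≤ HH k := by exact_mod_cast HH_adm k S h1 h2
  exact h3.trans h4

end Pool.Agent.U746.HL
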