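import Mathlib
import Pool.Agent.H442R2.EHI.PntErr
import Pool.Agent.U839.Thin.Det
import Pool.Agent.U839.Hl.Main
import Pool.Agent.U746.RH.Up
import Pool.Agent.U746.RH.Exs

set_option autoImplicit false

/-! # The counting functions of the primes and of the model, compared with `∑ 1 / log n` -/

open Finset Filter

namespace Pool.Agent.U746.HL

open Pool.Agent.H442R2.EHI (lis)
open Pool.Agent.H442R2.EHI.PntErrAux (step sumlog log_pow_le lis_succ)
open Pool.Agent.U839.Thin (tlog)
open Pool.Agent.U839.Hl (NN)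
open Pool.Agent.U746.RH (psi)

/-- the second order lower bound for the logarithmic sum -/
theorem lis_low (η : ℝ) (hη : 0 < η) : ∀ᶠ y : ℕ in atTop,
    (y : ℝ) / Real.log y + (1 - η) * (y / Real.log y ^ 2) ≤ lis y := by
  have hsm : ∀ᶠ y : ℕ in atTop, 1 + 3 * Real.log y ≤ η * y := by
    have h1 := (Real.isLittleO_log_id_atTop.bound (show 0 < η / 6 by positivity))
    filter_upwards [tendsto_natCast_atTop_atTop.eventually h1,
      tendsto_natCast_atTop_atTop.eventually_ge_atTop (2 / η), eventually_ge_atTop 1] with y g1 g2 g3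
    have hy1 : (1 : ℝ) ≤ y := by exact_mod_cast g3
    rw [Real.norm_of_nonneg (Real.log_nonneg hy1), id, Real.norm_of_nonneg (by linarith)] at g1
    rw [div_le_iff₀ hη] at g2
    linarith
  filter_upwards [hsm, eventually_ge_atTop 3] with y g1 g2
  have hy1 : (1 : ℝ) < y := by exact_mod_cast (by omega : 1 < y)
  have hL : 0 < Real.log y := Real.log_pos hy1
  obtain ⟨L, hLd⟩ : ∃ L, L = Real.log y := ⟨_, rfl⟩
  rw [← hLd] at g1 hL ⊢
  have hpt : ∀ n ∈ Icc 2 y, 1 / L + (L - Real.log n) / L ^ 2 ≤ 1 / Real.log n := by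
    intro n hn
    rw [mem_Icc] at hn
    have hn1 : (1 : ℝ) < n := by exact_mod_cast (by omega : 1 < n)
    have hln : 0 < Real.log n := Real.log_pos hn1
    have hle : Real.log n ≤ L := by
      rw [hLd]
      exact Real.log_le_log (by linarith) (by exact_mod_cast hn.2)
    have e : 1 / Real.log n - (1 / L + (L - Real.log n) / L ^ 2) =
        (L - Real.log n) ^ 2 / (Real.log n * L ^ 2) := by
      field_simp
      ring
    have : 0 ≤ (L - Real.log n) ^ 2 / (Real.log n * L ^ 2) := by positivity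
    linarith
  have hlog : ∑ n ∈ Icc 2 y, Real.log n ≤ y * L - y + 1 + L := by
    have h1 := Pool.Agent.H381R2.HR.A1aux.logfact y (by omega)
    have h2 : ∑ i ∈ Ioc 0 y, Real.log i = ∑ n ∈ Icc 2 y, Real.log n := by
      have h3 : Ioc 0 y = insert 1 (Icc 2 y) := by
        ext i
        simp only [mem_Ioc, mem_insert, mem_Icc]
        omega
      rw [h3, sum_insert (by simp)]
      simp
    rw [h2, ← hLd] at h1
    have h4 := (abs_le.1 h1).2
    linarith
  have hcard : ((Icc 2 y).card : ℝ) = y - 1 := by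
    rw [Nat.card_Icc]
    have : y + 1 - 2 = y - 1 := by omega
    rw [this, Nat.cast_sub (by omega)]
    simp
  have h5 : ∑ n ∈ Icc 2 y, (1 / L + (L - Real.log n) / L ^ 2) =
      (y - 1) / L + ((y - 1) * L - ∑ n ∈ Icc 2 y, Real.log n) / L ^ 2 := by
    rw [sum_add_distrib, sum_const, nsmul_eq_mul, hcard, ← Finset.sum_div, sum_sub_distrib, sum_const,
      nsmul_eq_mul, hcard]
    ring
  unfold lis
  calc (y : ℝ) / L + (1 - η) * (y / L ^ 2) ≤ (y - 1) / L + ((y - 1) * L - (y * L - y + 1 + L)) / L ^ 2 := by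
        rw [← sub_nonneg]
        have e : (y - 1) / L + ((y - 1) * L - (y * L - y + 1 + L)) / L ^ 2 -
            ((y : ℝ) / L + (1 - η) * (y / L ^ 2)) = (η * y - (1 + 3 * L)) / L ^ 2 := by
          field_simp
          ring
        rw [e]
        apply div_nonneg (by linarith) (by positivity)
    _ ≤ (y - 1) / L + ((y - 1) * L - ∑ n ∈ Icc 2 y, Real.log n) / L ^ 2 := by
        gcongr
    _ = ∑ n ∈ Icc 2 y, (1 / L + (L - Real.log n) / L ^ 2) := h5.symm
    _ ≤ ∑ n ∈ Icc 2 y, 1 / Real.log n := sum_le_sum hpt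

theorem psi_succ (Q : Set ℕ) (y : ℕ) (h : y + 1 ∈ Q) :
    psi Q (y + 1) 1 0 = psi Q y 1 0 + Real.log ((y + 1 : ℕ) : ℝ) := by
  classical
  unfold psi
  have : Ioc 0 (y + 1) = insert (y + 1) (Ioc 0 y) := by
    ext i; simp only [mem_Ioc, mem_insert]; omega
  rw [this, filter_insert, if_pos ⟨h, Nat.modEq_one⟩, sum_insert (by simp)]
  ring

theorem psi_succ' (Q : Set ℕ) (y : ℕ) (h : y + 1 ∉ Q) :
    psi Q (y + 1) 1 0 = psi Q y 1 0 := by
  classical
  unfold psi
  have : Ioc 0 (y + 1) = insert (y + 1) (Ioc 0 y) := by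
    ext i; simp only [mem_Ioc, mem_insert]; omega
  rw [this, filter_insert, if_neg (fun h1 => h h1.1)]

theorem NN_succ (Q : Set ℕ) (y : ℕ) (h : y + 1 ∈ Q) : NN Q 0 (y + 1) = NN Q 0 y + 1 := by
  classical
  unfold NN
  have : Ioc 0 (0 + (y + 1)) = insert (y + 1) (Ioc 0 (0 + y)) := by
    ext i; simp only [mem_Ioc, mem_insert]; omega
  rw [this, filter_insert, if_pos h, card_insert_of_notMem (by simp)]

theorem NN_succ' (Q : Set ℕ) (y : ℕ) (h : y + 1 ∉ Q) : NN Q 0 (y + 1) = NN Q 0 y := by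
  classical
  unfold NN
  have : Ioc 0 (0 + (y + 1)) = insert (y + 1) (Ioc 0 (0 + y)) := by
    ext i; simp only [mem_Ioc, mem_insert]; omega
  rw [this, filter_insert, if_neg h]

theorem abelQ (Q : Set ℕ) (y : ℕ) (hy : 2 ≤ y) :
    |(NN Q 0 y : ℝ) - lis y - (psi Q y 1 0 - y) / Real.log y| ≤ 4 +
      ∑ n ∈ Ico 2 y, |psi Q n 1 0 - n| * (1 / Real.log n - 1 / Real.log ((n + 1 : ℕ) : ℝ)) := by
  classical
  induction y, hy using Nat.le_induction with
  | base =>
    have h2 : lis 2 = 1 / Real.log 2 := by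
      unfold lis; simp
    have hlog2 : 0.69 < Real.log 2 := by linarith [Real.log_two_gt_d9]
    have h0 : psi Q 0 1 0 = 0 := by unfold psi; simp
    have h00 : NN Q 0 0 = 0 := by unfold NN; simp
    have h1 : psi Q 1 1 0 = 0 := by
      by_cases h : 0 + 1 ∈ Q
      · have := psi_succ Q 0 h
        simpa [h0] using this
      · have := psi_succ' Q 0 h
        simpa [h0] using this
    have h11 : NN Q 0 1 ≤ 1 := by
      by_cases h : 0 + 1 ∈ Q
      · have := NN_succ Q 0 h
        simp only [zero_add] at this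
        omega
      · have := NN_succ' Q 0 h
        simp only [zero_add] at this
        omega
    have hN0 : (0 : ℝ) ≤ NN Q 0 1 := Nat.cast_nonneg _
    have hN1 : (NN Q 0 1 : ℝ) ≤ 1 := by exact_mod_cast h11
    have hi : 1 / Real.log 2 ≤ 3 / 2 := by
      rw [div_le_iff₀ (by linarith)]
      linarith
    have hi0 : 0 < 1 / Real.log 2 := by positivity
    simp only [Ico_self, sum_empty, add_zero]
    rw [h2]
    by_cases h : 1 + 1 ∈ Q
    · have e1 := psi_succ Q 1 h
      have e2 := NN_succ Q 1 h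
      norm_num at e1 e2 ⊢
      rw [e1, e2, h1]
      push_cast
      have e : (NN Q 0 1 : ℝ) + 1 - (Real.log 2)⁻¹ - (0 + Real.log 2 - 2) / Real.log 2 =
          NN Q 0 1 + 1 / Real.log 2 := by
        field_simp
        ring
      rw [e, abs_of_nonneg (by linarith)]
      linarith
    · have e1 := psi_succ' Q 1 h
      have e2 := NN_succ' Q 1 h
      norm_num at e1 e2 ⊢
      rw [e1, e2, h1]
      have e : (NN Q 0 1 : ℝ) - (Real.log 2)⁻¹ - (0 - 2) / Real.log 2 =
          NN Q 0 1 + 1 / Real.log 2 := by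
        field_simp
        ring
      rw [e, abs_of_nonneg (by linarith)]
      linarith
  | succ y hy ih =>
    rw [sum_Ico_succ_top hy]
    have hy0 : (1 : ℝ) < y := by exact_mod_cast (by omega : 1 < y)
    have hl : 0 < Real.log y := Real.log_pos hy0
    have hl1 : 0 < Real.log ((y + 1 : ℕ) : ℝ) := Real.log_pos (by push_cast; linarith)
    have hll : Real.log y ≤ Real.log ((y + 1 : ℕ) : ℝ) :=
      Real.log_le_log (by linarith) (by push_cast; linarith)
    have hd : 0 ≤ 1 / Real.log y - 1 / Real.log ((y + 1 : ℕ) : ℝ) := by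
      rw [sub_nonneg]
      exact one_div_le_one_div_of_le hl hll
    have e : (NN Q 0 (y + 1) : ℝ) - lis (y + 1) -
        (psi Q (y + 1) 1 0 - (y + 1 : ℕ)) / Real.log ((y + 1 : ℕ) : ℝ) =
        ((NN Q 0 y : ℝ) - lis y - (psi Q y 1 0 - y) / Real.log y) +
        (psi Q y 1 0 - y) * (1 / Real.log y - 1 / Real.log ((y + 1 : ℕ) : ℝ)) := by
      rw [lis_succ y (by omega)]
      by_cases h : y + 1 ∈ Q
      · rw [psi_succ Q y h, NN_succ Q y h]
        push_cast at hl1 ⊢
        field_simp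
        ring
      · rw [psi_succ' Q y h, NN_succ' Q y h]
        push_cast at hl1 ⊢
        field_simp
        ring
    rw [e]
    refine (abs_add_le _ _).trans ?_
    rw [abs_mul, abs_of_nonneg hd]
    linarith

/-- from the weighted to the unweighted count -/
theorem cnt_near (Q : Set ℕ) (C : ℝ) (hC : 0 < C)
    (h : ∀ y : ℕ, 2 ≤ y → |psi Q y 1 0 - y| ≤ C * (y / Real.log y ^ 3)) :
    ∃ K : ℝ, 0 < K ∧ ∀ y : ℕ, 2 ≤ y → |(NN Q 0 y : ℝ) - lis y| ≤ K * (y / Real.log y ^ 3) := by
  obtain ⟨C1, hC1, h1⟩ := sumlog (3 + 2)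
  obtain ⟨C2, hC2, h2⟩ := log_pow_le 3
  have hlog2 : 0 < Real.log 2 := Real.log_pos (by norm_num)
  refine ⟨C / Real.log 2 + 4 * C2 + C * (C1 / Real.log 2 ^ 2), by positivity, fun y hy => ?_⟩
  have hy1 : (1 : ℝ) < y := by exact_mod_cast (by omega : 1 < y)
  have hy2 : (2 : ℝ) ≤ y := by exact_mod_cast hy
  have hy0 : (0 : ℝ) < y := by linarith
  have hly : 0 < Real.log y := Real.log_pos hy1
  have hll : Real.log 2 ≤ Real.log y := Real.log_le_log (by norm_num) hy2
  have hss := Real.mul_self_sqrt hy0.le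
  have hss1 : 1 ≤ √(y : ℝ) := by rw [Real.one_le_sqrt]; linarith
  have hsq : 1 ≤ C2 * (y / Real.log y ^ 3) := by
    refine hss1.trans ?_
    rw [← mul_div_assoc, le_div_iff₀ (by positivity)]
    calc √(y : ℝ) * Real.log y ^ 3 ≤ √(y : ℝ) * (C2 * √(y : ℝ)) := by
          gcongr; exact h2 y (by omega)
      _ = C2 * (√(y : ℝ) * √(y : ℝ)) := by ring
      _ = _ := by rw [hss]
  have ha := abelQ Q y hy
  have hE : |(psi Q y 1 0 - y) / Real.log y| ≤ C / Real.log 2 * (y / Real.log y ^ 3) := by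
    rw [abs_div, abs_of_pos hly]
    calc |psi Q y 1 0 - y| / Real.log y ≤ (C * (y / Real.log y ^ 3)) / Real.log 2 := by
          gcongr
          exact h y hy
      _ = _ := by ring
  have hS : ∑ n ∈ Ico 2 y, |psi Q n 1 0 - n| *
      (1 / Real.log n - 1 / Real.log ((n + 1 : ℕ) : ℝ)) ≤ C * (C1 / Real.log 2 ^ 2) * (y / Real.log y ^ 3) := by
    calc _ ≤ ∑ n ∈ Ico 2 y, C * (1 / Real.log n ^ (3 + 2)) := by
          refine sum_le_sum fun n hn => ?_
          rw [mem_Ico] at hn
          have hn1 : (1 : ℝ) < n := by exact_mod_cast (by omega : 1 < n)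
          have hln : 0 < Real.log n := Real.log_pos hn1
          calc _ ≤ (C * (n / Real.log n ^ 3)) * (1 / (n * Real.log n ^ 2)) := by
                refine (mul_le_mul_of_nonneg_left (step n hn.1) (abs_nonneg _)).trans ?_
                gcongr
                exact h n hn.1
            _ = _ := by
                rw [pow_add]
                field_simp
      _ = C * ∑ n ∈ Ico 2 y, (1 / Real.log n ^ (3 + 2)) := by rw [mul_sum]
      _ ≤ C * (C1 * (y / Real.log y ^ (3 + 2))) := by
          gcongr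
          exact h1 y hy
      _ = C * (C1 * ((y / Real.log y ^ 3) / Real.log y ^ 2)) := by
          rw [pow_add]; field_simp
      _ ≤ C * (C1 * ((y / Real.log y ^ 3) / Real.log 2 ^ 2)) := by
          gcongr
      _ = _ := by ring
  have e : ∀ P : ℝ, |P| ≤ |P - (psi Q y 1 0 - y) / Real.log y| + |(psi Q y 1 0 - y) / Real.log y| := by
    intro P
    calc |P| = |(P - (psi Q y 1 0 - y) / Real.log y) + (psi Q y 1 0 - y) / Real.log y| := by ring_nf
      _ ≤ _ := abs_add_le _ _
  refine (e _).trans ?_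
  have hfin : 4 ≤ 4 * C2 * (y / Real.log y ^ 3) := by linarith
  linarith

/-- the primes -/
theorem pi_near : ∃ K : ℝ, 0 < K ∧ ∀ y : ℕ, 2 ≤ y →
    |(Nat.primeCounting y : ℝ) - lis y| ≤ K * (y / Real.log y ^ 3) := by
  obtain ⟨C, hC⟩ := Pool.Agent.H442R2.EHI.pnt_err 3
  refine ⟨|C| + 1, by positivity, fun y hy => ?_⟩
  have hy1 : (1 : ℝ) < y := by exact_mod_cast (by omega : 1 < y)
  have hly : 0 < Real.log y := Real.log_pos hy1
  have h1 := hC y hy
  have h2 : ((Icc 1 y).filter (fun p : ℕ => p.Prime)).card = Nat.primeCounting y :=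
    Pool.Agent.U746.RH.card_Pr y
  rw [h2] at h1
  refine h1.trans ?_
  rw [mul_div_assoc]
  apply mul_le_mul_of_nonneg_right _ (by positivity)
  linarith [le_abs_self C]

end Pool.Agent.U746.HL
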