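import Mathlib

set_option autoImplicit false

/-! # Chernoff's bound for independent events -/

open Finset Filter Topology MeasureTheory ProbabilityTheory

namespace Pool.Agent.U746.HL

variable {Ω : Type*} [MeasurableSpace Ω] {μ : Measure Ω} [IsProbabilityMeasure μ]

/-- the indicator functions -/
noncomputable def XI (E : ℕ → Set Ω) (n : ℕ) : Ω → ℝ := (E n).indicator (fun _ => (1 : ℝ))

omit [IsProbabilityMeasure μ] in
theorem XI_indep {E : ℕ → Set Ω} (hE : iIndepSet E μ) : iIndepFun (XI E) μ := hE.iIndepFun_indicator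

theorem XI_meas {E : ℕ → Set Ω} (hm : ∀ n, MeasurableSet (E n)) (n : ℕ) : Measurable (XI E n) :=
  measurable_const.indicator (hm n)

theorem XI_exp (E : ℕ → Set Ω) (n : ℕ) (s : ℝ) (ω : Ω) :
    Real.exp (s * XI E n ω) = 1 + (Real.exp s - 1) * XI E n ω := by
  unfold XI
  by_cases h : ω ∈ E n
  · rw [Set.indicator_of_mem h]
    simp
  · rw [Set.indicator_of_notMem h]
    simp

theorem XI_mgf {E : ℕ → Set Ω} (hm : ∀ n, MeasurableSet (E n)) (n : ℕ) (s : ℝ) :
    mgf (XI E n) μ s = 1 + (Real.exp s - 1) * μ.real (E n) := by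
  have h1 : Integrable (XI E n) μ := (integrable_const (1 : ℝ)).indicator (hm n)
  unfold mgf
  simp only [XI_exp]
  rw [integral_add (integrable_const _) (h1.const_mul _), integral_const_mul]
  have h2 : ∫ ω, XI E n ω ∂μ = μ.real (E n) := by
    unfold XI
    rw [integral_indicator (hm n)]
    simp
  rw [h2]
  simp

theorem chern {E : ℕ → Set Ω} (hm : ∀ n, MeasurableSet (E n)) (hE : iIndepSet E μ) (I : Finset ℕ)
    (s e₀ m : ℝ) (hs : 0 ≤ s) (hI : ∑ n ∈ I, μ.real (E n) ≤ e₀) (c : Ω → ℕ)
    (hc : ∀ ω, (c ω : ℝ) = ∑ n ∈ I, XI E n ω) :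
    μ.real {ω | m ≤ (c ω : ℝ)} ≤ Real.exp (e₀ * (Real.exp s - 1) - s * m) := by
  have hset : {ω | m ≤ (c ω : ℝ)} = {ω | m ≤ (∑ n ∈ I, XI E n) ω} := by
    ext ω
    simp only [Set.mem_setOf_eq, hc, Finset.sum_apply]
  have hint : Integrable (fun ω => Real.exp (s * (∑ n ∈ I, XI E n) ω)) μ := by
    apply Integrable.of_bound (C := Real.exp (s * I.card))
    · apply Measurable.aestronglyMeasurable
      apply Real.measurable_exp.comp
      apply Measurable.const_mul
      have h0 : Measurable (fun ω => ∑ n ∈ I, XI E n ω) := Finset.measurable_sum I (fun n _ => XI_meas hm n)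
      have h1 : (∑ n ∈ I, XI E n) = fun ω => ∑ n ∈ I, XI E n ω := by
        ext ω
        rw [Finset.sum_apply]
      rw [h1]
      exact h0
    · filter_upwards with ω
      rw [Real.norm_of_nonneg (Real.exp_pos _).le]
      apply Real.exp_le_exp.2
      apply mul_le_mul_of_nonneg_left _ hs
      rw [Finset.sum_apply]
      calc ∑ n ∈ I, XI E n ω ≤ ∑ n ∈ I, (1 : ℝ) := by
            apply Finset.sum_le_sum
            intro n _
            unfold XI
            exact Set.indicator_le_self' (fun _ _ => zero_le_one) ω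
        _ = I.card := by simp
  have h1 := measure_ge_le_exp_mul_mgf (μ := μ) (X := ∑ n ∈ I, XI E n) m hs hint
  rw [hset]
  refine h1.trans ?_
  rw [(XI_indep hE).mgf_sum (XI_meas hm) I]
  have hes : 0 ≤ Real.exp s - 1 := by
    have := Real.add_one_le_exp s
    linarith
  have h2 : ∏ n ∈ I, mgf (XI E n) μ s ≤ Real.exp (e₀ * (Real.exp s - 1)) := by
    calc ∏ n ∈ I, mgf (XI E n) μ s ≤ ∏ n ∈ I, Real.exp ((Real.exp s - 1) * μ.real (E n)) := by
          apply Finset.prod_le_prod
          · intro n _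
            exact mgf_nonneg
          · intro n _
            rw [XI_mgf hm]
            have := Real.add_one_le_exp ((Real.exp s - 1) * μ.real (E n))
            linarith
      _ = Real.exp ((Real.exp s - 1) * ∑ n ∈ I, μ.real (E n)) := by
          rw [← Real.exp_sum, ← Finset.mul_sum]
      _ ≤ Real.exp (e₀ * (Real.exp s - 1)) := by
          apply Real.exp_le_exp.2
          have := mul_le_mul_of_nonneg_left hI hes
          linarith
  calc Real.exp (-s * m) * ∏ n ∈ I, mgf (XI E n) μ s ≤ Real.exp (-s * m) * Real.exp (e₀ * (Real.exp s - 1)) :=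
        mul_le_mul_of_nonneg_left h2 (Real.exp_pos _).le
    _ = _ := by
        rw [← Real.exp_add]
        congr 1
        ring

end Pool.Agent.U746.HL
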