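import Mathlib
import Pool.Agent.U839.Hl.Fail
import Pool.Agent.U746.HL.Chern

set_option autoImplicit false

/-! # Upper bounds for the numbers of chosen integers in all windows -/

open MeasureTheory ProbabilityTheory Filter Finset Topology

namespace Pool.Agent.U746.HL

open Pool.Agent.U839.Thin (tlog)
open Pool.Agent.U839.Fb (tloglog borel)
open Pool.Agent.U839.Sv (W W_pos fT fT_nonneg fT_le Sieved sum_window exists_R sub_pow W_bound)
open Pool.Agent.U839.Ru (mul_exp)
open Pool.Agent.U839.Hl (NN frac_mono)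

variable {Ω : Type*} [MeasurableSpace Ω] {μ : Measure Ω} [IsProbabilityMeasure μ]

omit [MeasurableSpace Ω] in
theorem NN_XI (E : ℕ → Set Ω) (x y : ℕ) (ω : Ω) :
    (NN {m | ω ∈ E m} x y : ℝ) = ∑ n ∈ Ioc x (x + y), XI E n ω := by
  classical
  unfold NN
  rw [card_filter]
  push_cast
  apply Finset.sum_congr rfl
  intro n _
  unfold XI
  by_cases h : ω ∈ E n
  · rw [Set.indicator_of_mem h]
    exact if_pos h
  · rw [Set.indicator_of_notMem h]
    exact if_neg h

theorem union_borel (N : ℕ → ℕ) (Bd : ℕ → ℕ → Set Ω) (p f : ℕ → ℝ)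
    (h : ∀ᶠ x in atTop, ∀ y < N x, μ.real (Bd x y) ≤ p x) (hsum : Summable f)
    (hN : ∀ᶠ x in atTop, (N x : ℝ) * p x ≤ f x) : ∀ᵐ ω ∂μ, ∀ᶠ x in atTop, ∀ y < N x, ω ∉ Bd x y := by
  have h1 : Summable (fun x : ℕ => μ.real (⋃ y ∈ range (N x), Bd x y)) := by
    refine Summable.of_norm_bounded_eventually_nat hsum ?_
    filter_upwards [h, hN] with x g1 g2
    rw [Real.norm_of_nonneg measureReal_nonneg]
    calc μ.real (⋃ y ∈ range (N x), Bd x y) ≤ ∑ y ∈ range (N x), μ.real (Bd x y) :=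
          measureReal_biUnion_finset_le _ _
      _ ≤ ∑ y ∈ range (N x), p x := sum_le_sum fun y hy => g1 y (mem_range.1 hy)
      _ = N x * p x := by rw [sum_const, card_range, nsmul_eq_mul]
      _ ≤ f x := g2
  filter_upwards [borel h1] with ω hω
  filter_upwards [hω] with x hx y hy hmem
  apply hx
  rw [Set.mem_iUnion₂]
  exact ⟨y, mem_range.2 hy, hmem⟩

/-- short windows -/
theorem upI (θ : ℝ) (hθ : 0 < θ) (T : ℕ → ℕ) (hTθ : ∀ᶠ n : ℕ in atTop, (T n : ℝ) ≤ (Real.log n) ^ θ)
    {E : ℕ → Set Ω} (h : Sieved μ E T) (ε : ℝ) (hε : 0 < ε) (B : ℝ) (hB : 1 ≤ B) :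
    ∃ κ : ℝ, 0 < κ ∧ κ ≤ 1 / 8 ∧ ∀ᵐ ω ∂μ, ∀ᶠ x : ℕ in atTop, ∀ y : ℕ, (1 + ε) * Real.log x ≤ y →
      (y : ℝ) ≤ (Real.log x) ^ B → (NN {m | ω ∈ E m} x y : ℝ) < (1 - κ) * (y / Real.log y) := by
  classical
  obtain ⟨C, hC, hW⟩ := W_bound
  obtain ⟨κ, hκ⟩ : ∃ κ : ℝ, κ = ε / (8 * (1 + ε)) := ⟨_, rfl⟩
  have hκ0 : 0 < κ := by rw [hκ]; positivity
  have hκ1 : κ * (1 + ε) = ε / 8 := by rw [hκ]; field_simp
  have hκ2 : κ ≤ 1 / 8 := by
    rw [hκ, div_le_div_iff₀ (by positivity) (by norm_num)]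
    linarith
  refine ⟨κ, hκ0, hκ2, ?_⟩
  obtain ⟨n₀, hn₀⟩ := eventually_atTop.1 hTθ
  obtain ⟨C₁, hC₁⟩ : ∃ C₁ : ℝ, C₁ = 2 * C + 4 * C * θ := ⟨_, rfl⟩
  have hC₁0 : 0 < C₁ := by rw [hC₁]; positivity
  obtain ⟨Bd, hBd⟩ : ∃ Bd : ℕ → ℕ → Set Ω, Bd = fun (x y : ℕ) =>
    if (1 + ε) * Real.log x ≤ y ∧ (y : ℝ) ≤ (Real.log x) ^ B then
      {ω | (1 - κ) * (y / Real.log y) ≤ (NN {m | ω ∈ E m} x y : ℝ)} else ∅ := ⟨_, rfl⟩
  have hmain := union_borel (μ := μ) (fun x => ⌊(Real.log x) ^ B⌋₊ + 1) Bd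
    (fun x => Real.exp (-((1 + ε / 2) * Real.log x))) (fun x => 1 / (x : ℝ) ^ (1 + ε / 4)) ?_
    (Real.summable_one_div_nat_rpow.2 (by linarith)) ?_
  · filter_upwards [hmain] with ω hω
    filter_upwards [hω, tlog.eventually_ge_atTop 1] with x hx hL y hy1 hy2
    by_contra hcon
    push Not at hcon
    have h1 : y < ⌊(Real.log x) ^ B⌋₊ + 1 := by
      have := Nat.le_floor hy2
      omega
    apply hx y h1
    rw [hBd]
    simp only
    rw [if_pos ⟨hy1, hy2⟩]
    exact hcon
  · filter_upwards [eventually_ge_atTop n₀, eventually_ge_atTop 1, tlog.eventually_ge_atTop 100,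
      tloglog.eventually (mul_exp (C₁ * B / κ) κ hκ0),
      tloglog.eventually_ge_atTop (Real.log (1 + ε) / κ), tloglog.eventually_ge_atTop 1,
      sub_pow T θ hTθ 1 one_pos, (isLittleO_log_rpow_rpow_atTop B one_pos).bound one_pos |>
        tendsto_natCast_atTop_atTop.eventually] with x g1 g2 g3 g4 g5 g6 g7 g8
    intro y _
    rw [hBd]
    simp only
    split_ifs with hcond
    swap
    · rw [measureReal_empty]
      exact (Real.exp_pos _).le
    obtain ⟨hy1, hy2⟩ := hcond
    obtain ⟨L, hL⟩ : ∃ L, L = Real.log x := ⟨_, rfl⟩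
    obtain ⟨u, hu⟩ : ∃ u, u = Real.log L := ⟨_, rfl⟩
    rw [← hL] at g3 g4 g5 g6 g8 hy1 hy2 ⊢
    rw [← hu] at g4 g5 g6
    have hL0 : 0 < L := by linarith
    have hx0 : (0 : ℝ) < x := by exact_mod_cast g2
    have huL : Real.exp u = L := by rw [hu, Real.exp_log hL0]
    have hu0 : 0 < u := by linarith
    have hy0 : 0 < (y : ℝ) := by nlinarith
    have hyL : L ≤ y := by nlinarith
    have hyx : (y : ℝ) ≤ x := by
      rw [one_mul, Real.rpow_one, Real.norm_of_nonneg (by positivity), Real.norm_of_nonneg hx0.le] at g8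
      rw [hL] at hy2
      exact hy2.trans (by rw [hL] at g8; exact g8)
    have hyxn : y ≤ x := by exact_mod_cast hyx
    have hly0 : u ≤ Real.log y := by rw [hu]; exact Real.log_le_log hL0 hyL
    have hly : 0 < Real.log y := by linarith
    have hlyB : Real.log y ≤ B * u := by
      have h1 := Real.log_le_log hy0 hy2
      rwa [Real.log_rpow hL0, ← hu] at h1
    -- the expectation
    have hmean : ∑ n ∈ Ioc x (x + y), μ.real (E n) ≤ y * (C₁ * u / L) := by
      have hq : ∀ n ∈ Ioc x (x + y), μ.real (E n) ≤ C₁ * u / L := by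
        intro n hn
        rw [mem_Ioc] at hn
        have hn1 : (x : ℝ) ≤ n := by exact_mod_cast hn.1.le
        have hn2 : (n : ℝ) ≤ 2 * x := by exact_mod_cast (by omega : n ≤ 2 * x)
        have hl1 : L ≤ Real.log n := by rw [hL]; exact Real.log_le_log hx0 hn1
        have hl2 : Real.log n ≤ 2 * L := by
          have h2 := Real.log_le_log (by linarith : (0 : ℝ) < n) hn2
          rw [Real.log_mul (by norm_num) hx0.ne', ← hL] at h2
          have := Real.log_two_lt_d9
          linarith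
        have hWn : W (T n) ≤ C₁ * u := by
          have hTn : Real.log (T n) ≤ θ * (2 * u) := by
            rcases Nat.eq_zero_or_pos (T n) with h0 | h0
            · rw [h0, Nat.cast_zero, Real.log_zero]; positivity
            · have h2 := Real.log_le_log (by exact_mod_cast h0) (hn₀ n (by omega))
              rw [Real.log_rpow (by linarith)] at h2
              have h3 : Real.log (Real.log n) ≤ 2 * u := by
                calc Real.log (Real.log n) ≤ Real.log (2 * L) := Real.log_le_log (by linarith) hl2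
                  _ = Real.log 2 + u := by rw [Real.log_mul (by norm_num) hL0.ne', hu]
                  _ ≤ 2 * u := by
                      have := Real.log_two_lt_d9
                      linarith
              calc Real.log (T n) ≤ θ * Real.log (Real.log n) := h2
                _ ≤ θ * (2 * u) := by gcongr
          have h2 := hW (T n)
          have h3 : C * Real.log (T n) ≤ C * (θ * (2 * u)) := by gcongr
          have h4 : 0 ≤ C * θ * u := by positivity
          rw [hC₁]
          nlinarith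
        rw [h.law n]
        refine (min_le_right _ _).trans ?_
        rw [div_le_div_iff₀ (by linarith) hL0]
        have h5 : fT T n ≤ C₁ * u := (fT_le T n).trans hWn
        have h6 : 0 ≤ C₁ * u := by positivity
        nlinarith [fT_nonneg T n]
      calc ∑ n ∈ Ioc x (x + y), μ.real (E n) ≤ ∑ n ∈ Ioc x (x + y), C₁ * u / L := sum_le_sum hq
        _ = y * (C₁ * u / L) := by
            rw [sum_const, Nat.card_Ioc, nsmul_eq_mul]
            congr 2
            omega
    have hch := chern h.meas h.indep (Ioc x (x + y)) ((1 - κ) * u) (y * (C₁ * u / L))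
      ((1 - κ) * (y / Real.log y)) (by nlinarith) hmean
      (fun ω => NN {m | ω ∈ E m} x y) (fun ω => NN_XI E x y ω)
    refine hch.trans ?_
    apply Real.exp_le_exp.2
    obtain ⟨v, hv⟩ : ∃ v, v = (y : ℝ) / Real.log y := ⟨_, rfl⟩
    have hv0 : 0 < v := by rw [hv]; positivity
    rw [← hv]
    have h1 : y * (C₁ * u / L) * (Real.exp ((1 - κ) * u) - 1) ≤ κ * u * v := by
      have h2 : y * (C₁ * u / L) * (Real.exp ((1 - κ) * u) - 1) ≤ y * (C₁ * u / L) * Real.exp ((1 - κ) * u) := by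
        apply mul_le_mul_of_nonneg_left (by linarith) (by positivity)
      have h3 : Real.exp ((1 - κ) * u) = L * Real.exp (-(κ * u)) := by
        rw [← huL, ← Real.exp_add]
        congr 1
        ring
      have h4 : y * (C₁ * u / L) * Real.exp ((1 - κ) * u) = y * (C₁ * u) * Real.exp (-(κ * u)) := by
        rw [h3]
        field_simp
      have h5 : (y : ℝ) = v * Real.log y := by rw [hv]; field_simp
      have h6 : C₁ * B * u * Real.exp (-(κ * u)) ≤ κ := by
        rw [Real.exp_neg, ← div_eq_mul_inv, div_le_iff₀ (Real.exp_pos _)]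
        have h7 : C₁ * B / κ * u * κ ≤ Real.exp (κ * u) * κ := by gcongr
        have h8 : C₁ * B / κ * u * κ = C₁ * B * u := by field_simp
        linarith
      calc _ ≤ y * (C₁ * u) * Real.exp (-(κ * u)) := by rw [← h4]; exact h2
        _ = (v * Real.log y) * (C₁ * u) * Real.exp (-(κ * u)) := by rw [← h5]
        _ = v * u * (C₁ * Real.log y * Real.exp (-(κ * u))) := by ring
        _ ≤ v * u * (C₁ * (B * u) * Real.exp (-(κ * u))) := by gcongr
        _ = v * u * (C₁ * B * u * Real.exp (-(κ * u))) := by ring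
        _ ≤ v * u * κ := by gcongr
        _ = _ := by ring
    have h2 : (1 + ε) * L ≤ v * ((1 + κ) * u) := by
      have h3 := frac_mono ((1 + ε) * L / 2) (y / 2) (by positivity) (by linarith) (by
        have : 2 * ((1 + ε) * L / 2) = (1 + ε) * L := by ring
        rw [this]
        have h4 : u ≤ Real.log ((1 + ε) * L) := by
          rw [hu]
          exact Real.log_le_log hL0 (by nlinarith)
        linarith)
      have e1 : 2 * ((y : ℝ) / 2) = y := by ring
      have e2 : 2 * ((1 + ε) * L / 2) = (1 + ε) * L := by ring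
      rw [e1, e2, Real.log_mul (by positivity) hL0.ne', ← hu] at h3
      have h4 : Real.log (1 + ε) ≤ κ * u := by
        rw [div_le_iff₀ hκ0] at g5
        linarith
      have h5 : (1 + ε) * L * Real.log y ≤ y * ((1 + κ) * u) := by
        have h6 : (y : ℝ) / 2 * (Real.log (1 + ε) + u) ≤ y / 2 * ((1 + κ) * u) := by
          apply mul_le_mul_of_nonneg_left _ (by positivity)
          linarith
        linarith
      rw [hv, div_mul_eq_mul_div, le_div_iff₀ hly]
      linarith
    have h3 : (1 - κ) * u * ((1 - κ) * v) - κ * u * v ≥ (1 - 4 * κ) * ((1 + κ) * (u * v)) := by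
      have h4 : 0 ≤ u * v := by positivity
      have h5 := mul_nonneg (sq_nonneg κ) h4
      nlinarith
    have h4 : (1 - 4 * κ) * ((1 + κ) * (u * v)) ≥ (1 - 4 * κ) * ((1 + ε) * L) := by
      have h5 : 0 ≤ 1 - 4 * κ := by linarith
      have := mul_le_mul_of_nonneg_left h2 h5
      nlinarith
    have h5 : (1 - 4 * κ) * ((1 + ε) * L) = (1 + ε / 2) * L := by
      have : (1 - 4 * κ) * ((1 + ε) * L) = ((1 + ε) - 4 * (κ * (1 + ε))) * L := by ring
      rw [this, hκ1]
      ring
    linarith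
  · filter_upwards [eventually_ge_atTop 1, tlog.eventually_ge_atTop 1,
      (isLittleO_log_rpow_rpow_atTop B (show 0 < ε / 4 by positivity)).bound (show (0 : ℝ) < 1 / 2 by norm_num) |>
        tendsto_natCast_atTop_atTop.eventually,
      ((tendsto_rpow_atTop (show 0 < ε / 4 by positivity)).comp
        tendsto_natCast_atTop_atTop).eventually_ge_atTop 2] with x g1 g2 g3 g4
    have hx0 : (0 : ℝ) < x := by exact_mod_cast g1
    rw [Real.norm_of_nonneg (by positivity), Real.norm_of_nonneg (by positivity)] at g3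
    simp only [Function.comp_apply] at g4
    have h1 : ((⌊(Real.log x) ^ B⌋₊ + 1 : ℕ) : ℝ) ≤ (x : ℝ) ^ (ε / 4) := by
      push_cast
      have := Nat.floor_le (show 0 ≤ (Real.log x) ^ B by positivity)
      linarith
    calc ((⌊(Real.log x) ^ B⌋₊ + 1 : ℕ) : ℝ) * Real.exp (-((1 + ε / 2) * Real.log x))
        ≤ (x : ℝ) ^ (ε / 4) * Real.exp (-((1 + ε / 2) * Real.log x)) := by gcongr
      _ = 1 / (x : ℝ) ^ (1 + ε / 4) := by
          rw [Real.rpow_def_of_pos hx0, Real.rpow_def_of_pos hx0, ← Real.exp_add, one_div, ← Real.exp_neg]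
          congr 1
          ring

/-- long windows -/
theorem upII (θ : ℝ) (hθ : 0 < θ) (T : ℕ → ℕ) (hTθ : ∀ᶠ n : ℕ in atTop, (T n : ℝ) ≤ (Real.log n) ^ θ)
    (hT : Monotone T) {E : ℕ → Set Ω} (h : Sieved μ E T) (δ : ℝ) (hδ : 0 < δ) (hδ1 : δ ≤ 1 / 10) :
    ∃ B : ℝ, 1 ≤ B ∧ ∀ᵐ ω ∂μ, ∀ᶠ x : ℕ in atTop, ∀ y : ℕ, (Real.log x) ^ B ≤ y → y ≤ x →
      (NN {m | ω ∈ E m} x y : ℝ) < (1 + 3 * δ) * (y / Real.log x) := by
  classical
  obtain ⟨R, hR1, hR2⟩ := exists_R δ hδ
  obtain ⟨n₀, hn₀⟩ := eventually_atTop.1 hTθ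
  obtain ⟨M, hM⟩ : ∃ M : ℝ, M = (θ + 1) * ((8 * R + 18 : ℕ) : ℝ) := ⟨_, rfl⟩
  have hM0 : 0 < M := by rw [hM]; positivity
  refine ⟨M + 3, by linarith, ?_⟩
  obtain ⟨Bd, hBd⟩ : ∃ Bd : ℕ → ℕ → Set Ω, Bd = fun (x y : ℕ) =>
    if (Real.log x) ^ (M + 3) ≤ y then
      {ω | (1 + 3 * δ) * (y / Real.log x) ≤ (NN {m | ω ∈ E m} x y : ℝ)} else ∅ := ⟨_, rfl⟩
  have hmain := union_borel (μ := μ) (fun x => x + 1) Bd
    (fun x => Real.exp (-(3 * Real.log x))) (fun x => 2 * (1 / (x : ℝ) ^ (2 : ℝ))) ?_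
    ((Real.summable_one_div_nat_rpow.2 (by norm_num)).mul_left 2) ?_
  · filter_upwards [hmain] with ω hω
    filter_upwards [hω] with x hx y hy1 hy2
    by_contra hcon
    push Not at hcon
    apply hx y (by omega)
    rw [hBd]
    simp only
    rw [if_pos hy1]
    exact hcon
  · have hbig : ∀ᶠ L : ℝ in atTop, (2 * L) ^ θ + 2 ≤ L ^ (θ + 1) := by
      have e1 := (tendsto_rpow_atTop (show (0 : ℝ) < θ by linarith)).eventually_ge_atTop 2
      filter_upwards [e1, eventually_ge_atTop (2 ^ θ + 1)] with L g1 g2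
      have hp : 0 < (2 : ℝ) ^ θ := by positivity
      have hL0 : 0 < L := by linarith
      rw [Real.mul_rpow (by norm_num) hL0.le, Real.rpow_add hL0, Real.rpow_one]
      nlinarith
    filter_upwards [eventually_ge_atTop n₀, eventually_ge_atTop 1, tlog.eventually_ge_atTop 100,
      tlog.eventually hbig, tlog.eventually_ge_atTop (1 / δ), tlog.eventually_ge_atTop (15 / δ ^ 2)]
      with x g1 g2 g3 g4 g5 g6
    intro y hyx
    rw [hBd]
    simp only
    split_ifs with hy1
    swap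
    · rw [measureReal_empty]
      exact (Real.exp_pos _).le
    obtain ⟨L, hL⟩ : ∃ L, L = Real.log x := ⟨_, rfl⟩
    rw [← hL] at g3 g4 g5 g6 hy1 ⊢
    have hL0 : 0 < L := by linarith
    have hx0 : (0 : ℝ) < x := by exact_mod_cast g2
    have hLp : 0 < L ^ M := by positivity
    have hpow3 : L ^ (M + 3) = L ^ M * L ^ 3 := by
      rw [Real.rpow_add hL0]
      norm_cast
    have hL1 : (1 : ℝ) ≤ L ^ M := Real.one_le_rpow (by linarith) hM0.le
    have hy0 : (0 : ℝ) < y := lt_of_lt_of_le (by positivity) hy1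
    -- the sieve
    have hTt : (T (x + y) : ℝ) ≤ (2 * L) ^ θ := by
      refine (hn₀ (x + y) (by omega)).trans ?_
      apply Real.rpow_le_rpow (Real.log_natCast_nonneg _) _ hθ.le
      have h2 : ((x + y : ℕ) : ℝ) ≤ 2 * x := by exact_mod_cast (by omega : x + y ≤ 2 * x)
      have h3 := Real.log_le_log (by positivity) h2
      rw [Real.log_mul (by norm_num) hx0.ne', ← hL] at h3
      have := Real.log_two_lt_d9
      linarith
    have herr : ((T (x + y) : ℝ) + 2) ^ (8 * R + 18) ≤ δ * y := by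
      calc ((T (x + y) : ℝ) + 2) ^ (8 * R + 18) ≤ (L ^ (θ + 1)) ^ (8 * R + 18) := by
            apply pow_le_pow_left₀ (by positivity)
            linarith
        _ = L ^ M := by
            rw [hM, ← Real.rpow_natCast, ← Real.rpow_mul hL0.le]
        _ ≤ δ * (L ^ M * L ^ 3) := by
            have h2 : 1 ≤ δ * L := by
              rw [div_le_iff₀ hδ] at g5
              linarith
            have h3 : 1 ≤ δ * L ^ 3 := by
              have h4 : L ≤ L ^ 3 := le_self_pow₀ (by linarith) (by norm_num)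
              have h5 := mul_le_mul_of_nonneg_left h4 hδ.le
              linarith
            nlinarith
        _ ≤ δ * y := by
            rw [← hpow3]
            gcongr
    have hsum : ∑ n ∈ Ioc x (x + y), fT T n ≤ (1 + 2 * δ) * y := by
      have h2 := sum_window R hR1 T hT x y (T (x + y)) le_rfl
      have h3 := (abs_le.1 h2).2
      have h4 : (2 : ℝ) ^ 25 * (1 / 2) ^ (2 * R) * y ≤ δ * y := by gcongr
      linarith
    have hmean : ∑ n ∈ Ioc x (x + y), μ.real (E n) ≤ (1 + 2 * δ) * (y / L) := by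
      calc ∑ n ∈ Ioc x (x + y), μ.real (E n) ≤ ∑ n ∈ Ioc x (x + y), fT T n / L := by
            apply sum_le_sum
            intro n hn
            rw [mem_Ioc] at hn
            have hn1 : (x : ℝ) ≤ n := by exact_mod_cast hn.1.le
            have hl1 : L ≤ Real.log n := by rw [hL]; exact Real.log_le_log hx0 hn1
            rw [h.law n]
            refine (min_le_right _ _).trans ?_
            exact div_le_div_of_nonneg_left (fT_nonneg T n) hL0 hl1
        _ = (∑ n ∈ Ioc x (x + y), fT T n) / L := by rw [Finset.sum_div]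
        _ ≤ ((1 + 2 * δ) * y) / L := by gcongr
        _ = _ := by ring
    have hch := chern h.meas h.indep (Ioc x (x + y)) (δ / 2) ((1 + 2 * δ) * (y / L))
      ((1 + 3 * δ) * (y / L)) (by positivity) hmean
      (fun ω => NN {m | ω ∈ E m} x y) (fun ω => NN_XI E x y ω)
    refine hch.trans ?_
    apply Real.exp_le_exp.2
    have hes : Real.exp (δ / 2) - 1 ≤ δ / 2 + (δ / 2) ^ 2 := by
      have h2 := Real.abs_exp_sub_one_sub_id_le (x := δ / 2) (by rw [abs_of_pos (by positivity)]; linarith)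
      have h3 := (abs_le.1 h2).2
      linarith
    have hyL : 15 / δ ^ 2 * L ≤ y / L := by
      rw [le_div_iff₀ hL0]
      calc 15 / δ ^ 2 * L * L ≤ L * L * L := by gcongr
        _ = L ^ 3 := by ring
        _ ≤ L ^ M * L ^ 3 := by
            have : (0 : ℝ) ≤ L ^ 3 := by positivity
            nlinarith
        _ ≤ y := by rw [← hpow3]; exact hy1
    have hyL' : 15 * L ≤ δ ^ 2 * (y / L) := by
      have h2 : δ ^ 2 * (15 / δ ^ 2 * L) ≤ δ ^ 2 * (y / L) := by gcongr
      have h3 : δ ^ 2 * (15 / δ ^ 2 * L) = 15 * L := by field_simp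
      linarith
    have h2 : (1 + 2 * δ) * (y / L) * (Real.exp (δ / 2) - 1) ≤
        (1 + 2 * δ) * (y / L) * (δ / 2 + (δ / 2) ^ 2) := by gcongr
    have h3 : (1 + 2 * δ) * (y / L) * (δ / 2 + (δ / 2) ^ 2) - δ / 2 * ((1 + 3 * δ) * (y / L)) ≤
        -(1 / 5) * (δ ^ 2 * (y / L)) := by
      have h4 : 0 < y / L := by positivity
      have h5 : (1 + 2 * δ) * (δ / 2 + (δ / 2) ^ 2) - δ / 2 * (1 + 3 * δ) ≤ -(1 / 5) * δ ^ 2 := by
        nlinarith [sq_nonneg δ, mul_pos hδ hδ]
      have := mul_le_mul_of_nonneg_right h5 h4.le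
      linarith
    linarith
  · filter_upwards [eventually_ge_atTop 1] with x g1
    have hx0 : (0 : ℝ) < x := by exact_mod_cast g1
    have hx1 : (1 : ℝ) ≤ x := by exact_mod_cast g1
    have e : Real.exp (-(3 * Real.log x)) = (x : ℝ) ^ (-(3 : ℝ)) := by
      rw [Real.rpow_def_of_pos hx0]
      congr 1
      ring
    rw [e]
    push_cast
    calc ((x : ℝ) + 1) * (x : ℝ) ^ (-(3 : ℝ)) ≤ (2 * x) * (x : ℝ) ^ (-(3 : ℝ)) := by gcongr; linarith
      _ = 2 * ((x : ℝ) ^ (1 : ℝ) * (x : ℝ) ^ (-(3 : ℝ))) := by rw [Real.rpow_one]; ring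
      _ = 2 * (1 / (x : ℝ) ^ (2 : ℝ)) := by
          rw [← Real.rpow_add hx0, one_div, ← Real.rpow_neg hx0.le]
          norm_num

end Pool.Agent.U746.HL
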