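import Mathlib
import Pool.Agent.U746.HL.Up
import Pool.Agent.U746.HL.Li
import Pool.Agent.U746.RH.Lo

set_option autoImplicit false

/-! # Upper bounds: all windows -/

open MeasureTheory ProbabilityTheory Filter Finset Topology

namespace Pool.Agent.U746.HL

open Pool.Agent.U839.Thin (tlog)
open Pool.Agent.U839.Fb (tloglog borel)
open Pool.Agent.U839.Sv (Sieved)
open Pool.Agent.U839.Hl (NN)
open Pool.Agent.H442R2.EHI (lis)
open Pool.Agent.U746.RH (psi)

variable {Ω : Type*} [MeasurableSpace Ω] {μ : Measure Ω} [IsProbabilityMeasure μ]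

/-- the prime number theorem of the model, with a power saving -/
theorem psi_model (θ : ℝ) (hθ : 0 < θ) (T : ℕ → ℕ) (hTθ : ∀ᶠ n : ℕ in atTop, (T n : ℝ) ≤ (Real.log n) ^ θ)
    (hT : Monotone T) {E : ℕ → Set Ω} (h : Sieved μ E T) :
    ∃ γ : ℝ, 0 < γ ∧ γ ≤ 1 / 8 ∧ ∀ᵐ ω ∂μ, ∃ C : ℝ, 0 < C ∧ ∀ x : ℕ, 1 ≤ x →
      |psi {m | ω ∈ E m} x 1 0 - x| ≤ C * (x : ℝ) ^ (1 - 3 * γ) := by
  obtain ⟨β, hβ⟩ : ∃ β : ℝ, β = max (1 / 2) (1 - 1 / θ) := ⟨_, rfl⟩
  have hβ1 : β < 1 := by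
    rw [hβ]
    apply max_lt (by norm_num)
    have : 0 < 1 / θ := by positivity
    linarith
  have hβ2 : 1 / 2 ≤ β := by rw [hβ]; exact le_max_left _ _
  refine ⟨(1 - β) / 4, by linarith, by linarith, ?_⟩
  have hGr : Pool.Agent.U746.RH.Gr θ T := by
    intro δ hδ
    filter_upwards [hTθ, tlog.eventually_ge_atTop 1] with n g1 g2
    exact g1.trans (Real.rpow_le_rpow_of_exponent_le g2 (by linarith))
  filter_upwards [Pool.Agent.U746.RH.up h.meas h.indep θ hθ T hT hGr h.law] with ω hω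
  obtain ⟨C, hC, h1⟩ := hω ((1 - β) / 4) (by linarith)
  refine ⟨C, hC, fun x hx => ?_⟩
  have h2 := h1 x 1 0 le_rfl hx (by simp)
  rw [Pool.Agent.U746.RH.MT_one, ← hβ, Nat.cast_one, div_one] at h2
  have hx0 : (0 : ℝ) < x := by exact_mod_cast (by omega : 0 < x)
  rw [← Real.rpow_add hx0] at h2
  have e : (1 - β) / 4 + β = 1 - 3 * ((1 - β) / 4) := by ring
  rw [e] at h2
  exact h2

/-- powers are smaller than powers of logarithms -/
theorem pow_small (γ : ℝ) (hγ : 0 < γ) : ∃ K : ℝ, 0 < K ∧ ∀ x : ℕ, 2 ≤ x →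
    (x : ℝ) ^ (1 - 3 * γ) ≤ K * (x / Real.log x ^ 3) := by
  refine ⟨(1 / γ) ^ 3, by positivity, fun x hx => ?_⟩
  have hx1 : (1 : ℝ) < x := by exact_mod_cast (by omega : 1 < x)
  have hx0 : (0 : ℝ) < x := by linarith
  have hL : 0 < Real.log x := Real.log_pos hx1
  have h1 : Real.log x ≤ (x : ℝ) ^ γ / γ := Real.log_le_rpow_div hx0.le hγ
  have h2 : Real.log x ^ 3 ≤ ((x : ℝ) ^ γ / γ) ^ 3 := pow_le_pow_left₀ hL.le h1 3
  have h3 : ((x : ℝ) ^ γ) ^ 3 = (x : ℝ) ^ (3 * γ) := by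
    rw [← Real.rpow_natCast, ← Real.rpow_mul hx0.le]
    congr 1
    push_cast
    ring
  have h4 : (x : ℝ) ^ (1 - 3 * γ) * (x : ℝ) ^ (3 * γ) = x := by
    rw [← Real.rpow_add hx0]
    have : 1 - 3 * γ + 3 * γ = 1 := by ring
    rw [this, Real.rpow_one]
  rw [mul_div_assoc', le_div_iff₀ (by positivity)]
  calc (x : ℝ) ^ (1 - 3 * γ) * Real.log x ^ 3 ≤ (x : ℝ) ^ (1 - 3 * γ) * ((x : ℝ) ^ γ / γ) ^ 3 := by gcongr
    _ = (1 / γ) ^ 3 * ((x : ℝ) ^ (1 - 3 * γ) * (x : ℝ) ^ (3 * γ)) := by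
        rw [div_pow, h3]
        ring
    _ = (1 / γ) ^ 3 * x := by rw [h4]

/-- the own count of the model -/
theorem cnt_model (θ : ℝ) (hθ : 0 < θ) (T : ℕ → ℕ) (hTθ : ∀ᶠ n : ℕ in atTop, (T n : ℝ) ≤ (Real.log n) ^ θ)
    (hT : Monotone T) {E : ℕ → Set Ω} (h : Sieved μ E T) :
    ∀ᵐ ω ∂μ, ∃ K : ℝ, 0 < K ∧ ∀ y : ℕ, 2 ≤ y →
      |(NN {m | ω ∈ E m} 0 y : ℝ) - lis y| ≤ K * (y / Real.log y ^ 3) := by
  obtain ⟨γ, hγ, hγ1, h1⟩ := psi_model θ hθ T hTθ hT h
  obtain ⟨K, hK, h2⟩ := pow_small γ hγ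
  filter_upwards [h1] with ω ⟨C, hC, h3⟩
  apply cnt_near _ (C * K) (by positivity)
  intro y hy
  refine (h3 y (by omega)).trans ?_
  rw [mul_assoc]
  exact mul_le_mul_of_nonneg_left (h2 y hy) hC.le

/-- a counting function with the right main term has the second order lower bound -/
theorem near_low (K : ℝ) (η : ℝ) (hη : 0 < η) : ∀ᶠ y : ℕ in atTop, ∀ P : ℝ,
    |P - lis y| ≤ K * (y / Real.log y ^ 3) → (y : ℝ) / Real.log y + (1 - η) * (y / Real.log y ^ 2) ≤ P := by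
  filter_upwards [lis_low (η / 2) (by positivity), tlog.eventually_ge_atTop (2 * |K| / η),
    tlog.eventually_ge_atTop 1] with y g1 g2 g3 P hP
  have hL : 0 < Real.log y := by linarith
  have h1 := (abs_le.1 hP).1
  have h2 : K * ((y : ℝ) / Real.log y ^ 3) ≤ η / 2 * (y / Real.log y ^ 2) := by
    rw [div_le_iff₀ hη] at g2
    have h3 : K ≤ η / 2 * Real.log y := by linarith [le_abs_self K]
    calc K * ((y : ℝ) / Real.log y ^ 3) ≤ (η / 2 * Real.log y) * ((y : ℝ) / Real.log y ^ 3) := by gcongr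
      _ = _ := by field_simp
  linarith

omit [MeasurableSpace Ω] in
/-- the window count from the weighted counts -/
theorem NN_psi (Q : Set ℕ) (x y : ℕ) (hx : 1 ≤ x) :
    (NN Q x y : ℝ) * Real.log x ≤ psi Q (x + y) 1 0 - psi Q x 1 0 := by
  classical
  have h1 : psi Q (x + y) 1 0 - psi Q x 1 0 = ∑ n ∈ (Ioc x (x + y)).filter (fun n => n ∈ Q), Real.log n := by
    unfold psi
    rw [sub_eq_iff_eq_add, ← Finset.sum_union]
    · congr 1
      ext n
      simp only [mem_filter, mem_union, mem_Ioc]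
      constructor
      · rintro ⟨⟨h1, h2⟩, h3, h4⟩
        rcases Nat.lt_or_ge x n with h5 | h5
        · exact Or.inl ⟨⟨h5, h2⟩, h3⟩
        · exact Or.inr ⟨⟨h1, h5⟩, h3, h4⟩
      · rintro (⟨⟨h1, h2⟩, h3⟩ | ⟨⟨h1, h2⟩, h3, h4⟩)
        · exact ⟨⟨by omega, h2⟩, h3, Nat.modEq_one⟩
        · exact ⟨⟨h1, by omega⟩, h3, h4⟩
    · rw [Finset.disjoint_left]
      intro n h1 h2
      rw [mem_filter, mem_Ioc] at h1 h2
      omega
  rw [h1]
  unfold NN
  rw [← nsmul_eq_mul, ← sum_const]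
  apply sum_le_sum
  intro n hn
  rw [mem_filter, mem_Ioc] at hn
  apply Real.log_le_log (by exact_mod_cast (by omega : 0 < x))
  exact_mod_cast hn.1.1.le

/-- all windows longer than `(1 + ε) log x` -/
theorem upper (θ : ℝ) (hθ : 0 < θ) (T : ℕ → ℕ) (hTθ : ∀ᶠ n : ℕ in atTop, (T n : ℝ) ≤ (Real.log n) ^ θ)
    (hT : Monotone T) {E : ℕ → Set Ω} (h : Sieved μ E T) (ε : ℝ) (hε : 0 < ε) (η : ℝ) (hη : 0 < η) :
    ∀ᵐ ω ∂μ, ∀ K : ℝ, ∀ᶠ x : ℕ in atTop, ∀ y : ℕ, (1 + ε) * Real.log x ≤ y → y ≤ x → ∀ P : ℝ,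
      |P - lis y| ≤ K * (y / Real.log y ^ 3) →
      (NN {m | ω ∈ E m} x y : ℝ) ≤ P - (1 - η) * (y / Real.log y ^ 2) := by
  obtain ⟨γ, hγ, hγ1, h1⟩ := psi_model θ hθ T hTθ hT h
  obtain ⟨B, hB, h2⟩ := upII θ hθ T hTθ hT h (γ / 3) (by positivity) (by linarith)
  obtain ⟨κ, hκ, hκ1, h3⟩ := upI θ hθ T hTθ h ε hε B hB
  filter_upwards [h1, h2, h3] with ω ⟨C, hC, g1⟩ g2 g3 K
  -- conditions on `y`
  obtain ⟨κ', hκ'⟩ : ∃ κ' : ℝ, κ' = min κ γ := ⟨_, rfl⟩
  have hκ'0 : 0 < κ' := by rw [hκ']; exact lt_min hκ hγ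
  have hy_ev : ∀ᶠ y : ℕ in atTop, (∀ P : ℝ, |P - lis y| ≤ K * (y / Real.log y ^ 3) →
      (y : ℝ) / Real.log y + (1 - η / 2) * (y / Real.log y ^ 2) ≤ P) ∧ 2 * (|η| + 2) / κ' ≤ Real.log y ∧
      1 ≤ Real.log y := by
    filter_upwards [near_low K (η / 2) (by positivity), tlog.eventually_ge_atTop (2 * (|η| + 2) / κ'),
      tlog.eventually_ge_atTop 1] with y k1 k2 k3
    exact ⟨k1, k2, k3⟩
  obtain ⟨y₀, hy₀⟩ := eventually_atTop.1 hy_ev
  have hsm : ∀ᶠ x : ℕ in atTop, 2 * C * 2 * Real.log x * (x : ℝ) ^ (-γ) ≤ η / 2 := by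
    have e1 := (isLittleO_log_rpow_atTop (r := γ) hγ).bound (show 0 < η / (8 * C) by positivity)
    filter_upwards [tendsto_natCast_atTop_atTop.eventually e1, eventually_ge_atTop 1,
      tlog.eventually_ge_atTop 0] with x k1 k2 k3
    have hx0 : (0 : ℝ) < x := by exact_mod_cast k2
    rw [Real.norm_of_nonneg k3, Real.norm_of_nonneg (by positivity)] at k1
    rw [Real.rpow_neg hx0.le]
    have hp : 0 < (x : ℝ) ^ γ := by positivity
    rw [← div_eq_mul_inv, div_le_iff₀ hp]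
    have k4 : 4 * C * Real.log x ≤ 4 * C * (η / (8 * C) * (x : ℝ) ^ γ) := by gcongr
    have k5 : 4 * C * (η / (8 * C) * (x : ℝ) ^ γ) = η / 2 * (x : ℝ) ^ γ := by
      field_simp
      ring
    linarith
  filter_upwards [g2, g3, tlog.eventually_ge_atTop (y₀ : ℝ), tlog.eventually_ge_atTop 1,
    eventually_ge_atTop 1, hsm] with x k2 k3 k4 k5 k6 k7 y hy1 hyx P hP
  have hx0 : (0 : ℝ) < x := by exact_mod_cast k6
  have hx1 : (1 : ℝ) ≤ x := by exact_mod_cast k6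
  obtain ⟨L, hL⟩ : ∃ L, L = Real.log x := ⟨_, rfl⟩
  rw [← hL] at k4 k5 hy1
  have hyy₀ : y₀ ≤ y := by
    have h0 : (0 : ℝ) ≤ y₀ := Nat.cast_nonneg _
    have h1 : (y₀ : ℝ) ≤ y := by nlinarith
    exact_mod_cast h1
  have hy0 : (0 : ℝ) < y := by nlinarith
  obtain ⟨l1, l2, l3⟩ := hy₀ y hyy₀
  have hPlow := l1 P hP
  have hly : 0 < Real.log y := by linarith
  have hyxR : (y : ℝ) ≤ x := by exact_mod_cast hyx
  have hlyL : Real.log y ≤ L := by rw [hL]; exact Real.log_le_log hy0 hyxR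
  -- short and middle windows
  have hshort : (NN {m | ω ∈ E m} x y : ℝ) ≤ (1 - κ') * (y / Real.log y) →
      (NN {m | ω ∈ E m} x y : ℝ) ≤ P - (1 - η) * (y / Real.log y ^ 2) := by
    intro hN
    have h1 : (2 * |η| + 2) * (y / Real.log y ^ 2) ≤ κ' * (y / Real.log y) := by
      rw [div_le_iff₀ hκ'0] at l2
      have h0 : 0 ≤ |η| := abs_nonneg η
      calc (2 * |η| + 2) * (y / Real.log y ^ 2) ≤ (Real.log y * κ') * (y / Real.log y ^ 2) := by
            gcongr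
            linarith
        _ = _ := by field_simp
    have h2 : 0 < (y : ℝ) / Real.log y ^ 2 := by positivity
    have h3 : η / 2 ≤ 2 * |η| + 1 := by
      have := le_abs_self η
      have := abs_nonneg η
      linarith
    nlinarith
  by_cases c1 : (y : ℝ) ≤ Real.log x ^ B
  · apply hshort
    refine (k3 y (by rw [← hL]; exact hy1) c1).le.trans ?_
    have : κ' ≤ κ := by rw [hκ']; exact min_le_left _ _
    gcongr
  · push Not at c1
    by_cases c2 : Real.log y ≤ (1 - 2 * γ) * L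
    · apply hshort
      refine (k2 y c1.le hyx).le.trans ?_
      have h1 : κ' ≤ γ := by rw [hκ']; exact min_le_right _ _
      have h2 : (y : ℝ) / Real.log x ≤ (1 - 2 * γ) * (y / Real.log y) := by
        rw [← hL, mul_div_assoc', div_le_div_iff₀ (by linarith) hly]
        nlinarith
      calc (1 + 3 * (γ / 3)) * ((y : ℝ) / Real.log x) ≤ (1 + 3 * (γ / 3)) * ((1 - 2 * γ) * (y / Real.log y)) := by
            gcongr
        _ ≤ (1 - κ') * (y / Real.log y) := by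
            have h3 : 0 < (y : ℝ) / Real.log y := by positivity
            have h4 : (1 + 3 * (γ / 3)) * (1 - 2 * γ) ≤ 1 - κ' := by nlinarith
            nlinarith
    · push Not at c2
      -- long windows
      have h1 := NN_psi {m | ω ∈ E m} x y k6
      have h2 := g1 x k6
      have h3 := g1 (x + y) (by omega)
      have h4 : ((x + y : ℕ) : ℝ) ^ (1 - 3 * γ) ≤ 2 * (x : ℝ) ^ (1 - 3 * γ) := by
        have h5 : ((x + y : ℕ) : ℝ) ≤ 2 * x := by push_cast; linarith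
        calc ((x + y : ℕ) : ℝ) ^ (1 - 3 * γ) ≤ (2 * x : ℝ) ^ (1 - 3 * γ) :=
              Real.rpow_le_rpow (by positivity) h5 (by linarith)
          _ = (2 : ℝ) ^ (1 - 3 * γ) * (x : ℝ) ^ (1 - 3 * γ) := Real.mul_rpow (by norm_num) hx0.le
          _ ≤ (2 : ℝ) ^ (1 : ℝ) * (x : ℝ) ^ (1 - 3 * γ) := by
              gcongr
              · norm_num
              · linarith
          _ = _ := by rw [Real.rpow_one]
      have hyp : (x : ℝ) ^ (1 - 3 * γ) ≤ y * (x : ℝ) ^ (-γ) := by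
        have h5 : (x : ℝ) ^ (1 - 2 * γ) ≤ y := by
          rw [Real.rpow_def_of_pos hx0, ← hL]
          calc Real.exp (L * (1 - 2 * γ)) ≤ Real.exp (Real.log y) := Real.exp_le_exp.2 (by linarith)
            _ = y := Real.exp_log hy0
        calc (x : ℝ) ^ (1 - 3 * γ) = (x : ℝ) ^ (1 - 2 * γ) * (x : ℝ) ^ (-γ) := by
              rw [← Real.rpow_add hx0]
              congr 1
              ring
          _ ≤ _ := by gcongr
      have h6 : (NN {m | ω ∈ E m} x y : ℝ) * L ≤ y + 3 * C * (y * (x : ℝ) ^ (-γ)) := by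
        have e1 := (abs_le.1 h2).1
        have e2 := (abs_le.1 h3).2
        have e3 : C * ((x + y : ℕ) : ℝ) ^ (1 - 3 * γ) ≤ C * (2 * (x : ℝ) ^ (1 - 3 * γ)) := by gcongr
        have e4 : 3 * C * (x : ℝ) ^ (1 - 3 * γ) ≤ 3 * C * (y * (x : ℝ) ^ (-γ)) := by gcongr
        rw [← hL] at h1
        push_cast at e2 e3
        linarith
      have h7 : (NN {m | ω ∈ E m} x y : ℝ) ≤ y / L + 3 * C * (y * (x : ℝ) ^ (-γ)) / L := by
        rw [← add_div, le_div_iff₀ (by linarith)]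
        exact h6
      have h8 : (y : ℝ) / L ≤ y / Real.log y := div_le_div_of_nonneg_left hy0.le hly hlyL
      have h9 : 3 * C * (y * (x : ℝ) ^ (-γ)) / L ≤ η / 2 * (y / Real.log y ^ 2) := by
        have hp : 0 < (x : ℝ) ^ (-γ) := by positivity
        have q1 : 4 * C * L * (x : ℝ) ^ (-γ) ≤ η / 2 := by
          rw [hL]
          linarith
        have q2 : (y : ℝ) / L ^ 2 ≤ y / Real.log y ^ 2 := by
          apply div_le_div_of_nonneg_left hy0.le (by positivity)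
          gcongr
        calc 3 * C * (y * (x : ℝ) ^ (-γ)) / L = (3 * C * L * (x : ℝ) ^ (-γ)) * (y / L ^ 2) := by
              field_simp
          _ ≤ η / 2 * (y / L ^ 2) := by
              apply mul_le_mul_of_nonneg_right _ (by positivity)
              have : 0 < C * L * (x : ℝ) ^ (-γ) := by positivity
              linarith
          _ ≤ _ := by gcongr
      have h10 : 0 < (y : ℝ) / Real.log y ^ 2 := by positivity
      linarith

end Pool.Agent.U746.HL
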