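import Mathlib
import Pool.Agent.U746.HL.Comb
import Pool.Agent.U746.HL.Adm

set_option autoImplicit false

/-! # The second Hardy–Littlewood conjecture in random models: assembly -/

open MeasureTheory ProbabilityTheory Filter Finset Topology

namespace Pool.Agent.U746.HL

open Pool.Agent.U839.Thin (tlog)
open Pool.Agent.U839.Fb (tloglog)
open Pool.Agent.U839.Sv (Sieved)
open Pool.Agent.U839.Hl (NN HH)
open Pool.Agent.H442R2.EHI (lis)

/-- the margin -/
noncomputable def mg (y : ℕ) : ℝ := y * Real.log (Real.log (Real.log y)) / (Real.log y) ^ 2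

theorem tlll : Tendsto (fun y : ℕ => Real.log (Real.log (Real.log (y : ℝ)))) atTop atTop :=
  Real.tendsto_log_atTop.comp tloglog

theorem mg_tendsto : Tendsto mg atTop atTop := by
  have h1 : ∀ᶠ y : ℕ in atTop, (y : ℝ) ^ (1 / 2 : ℝ) ≤ mg y := by
    have e1 := (isLittleO_log_rpow_atTop (r := 1 / 4) (by norm_num)).bound (show (0 : ℝ) < 1 by norm_num)
    filter_upwards [tendsto_natCast_atTop_atTop.eventually e1, tlll.eventually_ge_atTop 1,
      tlog.eventually_ge_atTop 1, eventually_ge_atTop 1] with y k1 k2 k3 k4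
    have hy0 : (0 : ℝ) < y := by exact_mod_cast k4
    have hL : 0 < Real.log y := by linarith
    rw [Real.norm_of_nonneg hL.le, Real.norm_of_nonneg (by positivity), one_mul] at k1
    unfold mg
    rw [le_div_iff₀ (by positivity)]
    have e2 : Real.log y ^ 2 ≤ (y : ℝ) ^ (1 / 2 : ℝ) := by
      calc Real.log y ^ 2 ≤ ((y : ℝ) ^ (1 / 4 : ℝ)) ^ 2 := pow_le_pow_left₀ hL.le k1 2
        _ = (y : ℝ) ^ (1 / 2 : ℝ) := by
            rw [← Real.rpow_natCast, ← Real.rpow_mul hy0.le]
            norm_num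
    calc (y : ℝ) ^ (1 / 2 : ℝ) * Real.log y ^ 2 ≤ (y : ℝ) ^ (1 / 2 : ℝ) * (y : ℝ) ^ (1 / 2 : ℝ) := by gcongr
      _ = y := by
          rw [← Real.rpow_add hy0]
          norm_num
      _ ≤ y * Real.log (Real.log (Real.log y)) := by nlinarith
  exact tendsto_atTop_mono' _ h1 ((tendsto_rpow_atTop (by norm_num)).comp tendsto_natCast_atTop_atTop)

theorem HH_low (α K : ℝ) (hα : α < 1 / 2) : ∀ᶠ y : ℕ in atTop, ∀ P : ℝ,
    |P - lis y| ≤ K * (y / Real.log y ^ 3) → P + α * mg y ≤ HH y := by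
  obtain ⟨K', hK', h1⟩ := pi_near
  filter_upwards [HH_pi ((α + 1 / 2) / 2) (by linarith), eventually_ge_atTop 2, tlog.eventually_ge_atTop 1,
    tlll.eventually_ge_atTop ((|K| + K') / ((1 / 2 - α) / 2))] with y k1 k2 k3 k4 P hP
  have hL : 0 < Real.log y := by linarith
  have hy0 : (0 : ℝ) < y := by exact_mod_cast (by omega : 0 < y)
  have h2 := (abs_le.1 (h1 y k2)).1
  have h3 := (abs_le.1 hP).2
  have hd : 0 < (1 / 2 - α) / 2 := by linarith
  rw [div_le_iff₀ hd] at k4
  have h4 : (K + K') * (y / Real.log y ^ 3) ≤ (1 / 2 - α) / 2 * mg y := by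
    unfold mg
    have h5 : K + K' ≤ (1 / 2 - α) / 2 * Real.log (Real.log (Real.log y)) := by
      linarith [le_abs_self K]
    have h6 : (y : ℝ) / Real.log y ^ 3 ≤ y / Real.log y ^ 2 := by
      apply div_le_div_of_nonneg_left hy0.le (by positivity)
      exact pow_le_pow_right₀ k3 (by norm_num)
    have h7 : 0 ≤ (1 / 2 - α) / 2 * Real.log (Real.log (Real.log y)) := by
      have := abs_nonneg K
      linarith
    calc (K + K') * ((y : ℝ) / Real.log y ^ 3)
        ≤ ((1 / 2 - α) / 2 * Real.log (Real.log (Real.log y))) * (y / Real.log y ^ 3) := by gcongr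
      _ ≤ ((1 / 2 - α) / 2 * Real.log (Real.log (Real.log y))) * (y / Real.log y ^ 2) := by gcongr
      _ = _ := by ring
  have h8 : (y : ℝ) * Real.log (Real.log (Real.log y)) / Real.log y ^ 2 = mg y := rfl
  rw [h8] at k1
  linarith

theorem NN_add (Q : Set ℕ) (x y : ℕ) : NN Q 0 (x + y) = NN Q 0 x + NN Q x y := by
  classical
  unfold NN
  rw [← card_union_of_disjoint, ← filter_union]
  · congr 2
    ext n
    simp only [mem_union, mem_Ioc]
    omega
  · rw [Finset.disjoint_left]
    intro n h1 h2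
    rw [mem_filter, mem_Ioc] at h1 h2
    omega

end Pool.Agent.U746.HL
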